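import Pool.Agent.H.MP_edc851_co.B

namespace Pool.Agent.Results.MP_edc851_co.Yes

open Finset PowerSeries
open scoped Pointwise

variable {n : ℕ} {V : Type} [PartialOrder V]

open Classical in
/-- elements of the blocks at `v` and at its descendants -/
noncomputable def D (β : Fin n → V) (v : V) : Finset (Fin n) := {i | v ≤ β i}

/-- the arbor polytope -/
def Q (β : Fin n → V) : Set (Fin n → ℝ) :=
  {x | (∀ i, 0 ≤ x i) ∧ ∀ v, ∑ i ∈ D β v, x i ≤ (D β v).card}

/-- lattice points of the `m`-th dilate -/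
noncomputable def Ehr (β : Fin n → V) (m : ℕ) : ℕ :=
  Set.ncard {x : Fin n → ℤ | (fun i => (x i : ℝ)) ∈ (m : ℝ) • Q β}

/-- descent number -/
def des (w : Fin n → Fin n) : ℕ := #{i : Fin n | ∃ h : i + 1 < n, w ⟨i + 1, h⟩ < w i}

open Classical in
/-- the admissible words -/
noncomputable def W (β : Fin n → V) : Finset (Fin n → Fin n) :=
  {w | ∀ v, (D β v).card ≤ #{j | w j ∈ D β v}}

open Pool.Agent.H.MP_edc851_co

theorem mem_smul [OrderBot V] (β : Fin n → V) (m : ℕ) (x : Fin n → ℝ) :
    x ∈ (m : ℝ) • Q β ↔ (∀ i, 0 ≤ x i) ∧ ∀ v, ∑ i ∈ D β v, x i ≤ m * (D β v).card := by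
  rcases Nat.eq_zero_or_pos m with rfl | hm
  · rw [Nat.cast_zero, Set.zero_smul_set (s := Q β) ⟨0, fun _ => le_rfl, fun v => by simp⟩, Set.mem_zero]
    constructor
    · rintro rfl; simp
    · rintro ⟨h1, h2⟩
      have := h2 ⊥
      funext i
      have h3 := single_le_sum (f := x) (s := D β ⊥) (fun j _ => h1 j) (a := i) (by simp [D])
      exact le_antisymm (by simpa using h3.trans this) (h1 i)
  · have hm' : (0 : ℝ) < m := by exact_mod_cast hm
    rw [Set.mem_smul_set_iff_inv_smul_mem₀ hm'.ne']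
    simp only [Q, Set.mem_setOf_eq, Pi.smul_apply, smul_eq_mul, ← mul_sum,
      inv_mul_le_iff₀ hm', mul_nonneg_iff_of_pos_left (inv_pos.2 hm')]

theorem Ehr_eq [Fintype V] [OrderBot V] (β : Fin n → V) (m : ℕ) :
    Ehr β m = ∑ c ∈ range (m * n + 1),
      #{a ∈ piAntidiag univ c | ∀ E ∈ univ.image (D β), ∑ i ∈ E, a i ≤ m * E.card} := by
  rw [← card_sigma, Ehr, ← Set.ncard_coe_finset]
  symm
  refine Set.ncard_congr (fun p _ i => (p.2 i : ℤ)) ?_ ?_ ?_
  · rintro ⟨c, a⟩ hp
    simp only [mem_coe, mem_sigma, mem_filter, forall_mem_image, mem_univ, true_imp_iff] at hp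
    rw [Set.mem_setOf_eq, mem_smul]
    exact ⟨fun i => by positivity, fun v => by exact_mod_cast hp.2.2 (x := v)⟩
  · rintro ⟨c, a⟩ ⟨c', a'⟩ hp hp' e
    simp only [mem_coe, mem_sigma, mem_filter, mem_piAntidiag] at hp hp'
    obtain rfl : a = a' := funext fun i => by exact_mod_cast congrFun e i
    obtain rfl : c = c' := hp.2.1.1.symm.trans hp'.2.1.1
    rfl
  · intro x hx
    rw [Set.mem_setOf_eq, mem_smul] at hx
    have h0 : ∀ i, ((x i).toNat : ℤ) = x i := fun i =>
      Int.toNat_of_nonneg (by exact_mod_cast hx.1 i)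
    have h1 : ∀ v, ∑ i ∈ D β v, (x i).toNat ≤ m * (D β v).card := fun v => by
      have : ∑ i ∈ D β v, x i ≤ m * (D β v).card := by exact_mod_cast hx.2 v
      zify
      simpa only [h0] using this
    refine ⟨⟨∑ i, (x i).toNat, fun i => (x i).toNat⟩, ?_, funext h0⟩
    simp only [mem_coe, mem_sigma, mem_filter, forall_mem_image, mem_univ, true_imp_iff,
      mem_piAntidiag, mem_range, implies_true, and_self, true_and]
    refine ⟨?_, fun v => h1 v⟩
    have := h1 ⊥
    simp only [D, bot_le, filter_true, card_univ, Fintype.card_fin] at this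
    omega

theorem gap_sum (k : ℕ) (w : Fin (k + 1) → Fin (k + 1)) :
    ∑ j ∈ range (k + 1), gap w j = k + 1 - 1 - des w := by
  have h1 : des w = ∑ j : Fin k, if w j.succ < w j.castSucc then 1 else 0 := by
    rw [des, card_filter, Fin.sum_univ_castSucc]
    simp only [Fin.val_castSucc, Fin.val_last, lt_irrefl, IsEmpty.exists_iff, if_false, add_zero,
      Nat.add_lt_add_iff_right, Fin.is_lt, exists_true_left]
    rfl
  have h2 : ∑ j ∈ range (k + 1), gap w j = ∑ j : Fin k, if w j.succ < w j.castSucc then 0 else 1 := by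
    rw [sum_range_succ', ← Fin.sum_univ_eq_sum_range (fun j => gap w (j + 1))]
    simp only [gap, lt_irrefl, false_and, dif_neg, not_false_iff, add_zero, Nat.succ_pos,
      Nat.add_lt_add_iff_right, Fin.is_lt, and_self, dif_pos, Nat.add_sub_cancel]
    rfl
  have h3 : ∑ j ∈ range (k + 1), gap w j + des w = k := by
    rw [h1, h2, ← sum_add_distrib, sum_congr rfl (g := fun _ => 1) fun j _ => by split_ifs <;> rfl]
    simp
  omega

theorem result (n : ℕ) (hn : 1 ≤ n) (V : Type) [Fintype V] [PartialOrder V] [OrderBot V]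
    (htree : ∀ u v w : V, u ≤ w → v ≤ w → u ≤ v ∨ v ≤ u)
    (β : Fin n → V) (_hβ : Function.Surjective β) :
    (PowerSeries.mk fun m => (Ehr β m : ℤ)) * (1 - X) ^ (n + 1)
      = ∑ w ∈ W β, X ^ (n - 1 - des w) := by
  obtain ⟨k, rfl⟩ : ∃ k, n = k + 1 := ⟨n - 1, by omega⟩
  have h1 : ∀ m, Ehr β m = ∑ w ∈ W β, (m + (k + 1) - (k + 1 - 1 - des w)).choose (k + 1) := by
    intro m
    have := step1 m univ (univ.image (D β)) (mem_image.2 ⟨⊥, mem_univ _, by simp [D]⟩)
      (fun _ _ => subset_univ _) (by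
        simp only [forall_mem_image, mem_univ, true_imp_iff]
        intro u v
        by_cases h : Disjoint (D β u) (D β v)
        · exact Or.inr (Or.inr h)
        · obtain ⟨i, h1, h2⟩ := not_disjoint_iff.1 h
          simp only [D, mem_filter, mem_univ, true_and] at h1 h2
          rcases htree u v _ h1 h2 with h | h
          · exact Or.inr (Or.inl fun j => by simpa [D] using h.trans)
          · exact Or.inl fun j => by simpa [D] using h.trans)
    rw [card_univ, Fintype.card_fin] at this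
    have e1 : Ehr β m = (AA (k + 1) m (univ.image (D β))).card := by
      rw [Ehr_eq, card_AA]
      convert this.symm
    rw [e1, card_AA']
    simp only [card_K, gap_sum]
    refine sum_congr ?_ fun _ _ => rfl
    ext w
    simp [W]
  have h2 : (PowerSeries.mk fun m => (Ehr β m : ℤ)) = ∑ w ∈ W β,
      X ^ (k + 1 - 1 - des w) * PowerSeries.mk fun m => ((k + 1 + m).choose (k + 1) : ℤ) := by
    ext m
    rw [coeff_mk, h1, map_sum, Nat.cast_sum]
    refine sum_congr rfl fun w _ => ?_
    rw [coeff_X_pow_mul', coeff_mk]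
    split_ifs with h
    · congr 2; omega
    · rw [Nat.choose_eq_zero_of_lt (by omega), Nat.cast_zero]
  rw [h2, sum_mul]
  refine sum_congr rfl fun w _ => ?_
  rw [mul_assoc, mk_add_choose_mul_one_sub_pow_eq_one, mul_one]

end Pool.Agent.Results.MP_edc851_co.Yes
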